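import Mathlib
import Pool.Agent.Y897.ST.UpB

set_option autoImplicit false

namespace Pool.Agent.Results.MP_ac14a7_nt.AllPowers

open Polynomial Filter

/-- The naive height of an integer polynomial: the maximum absolute value of its coefficients. -/
noncomputable def height (P : ℤ[X]) : ℕ := P.support.sup (fun i => (P.coeff i).natAbs)

/-- `P` is the minimal polynomial over `ℤ` of the real number `α`: irreducible, primitive,
with positive leading coefficient, vanishing at `α`. -/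
def IsMinPolyZ (P : ℤ[X]) (α : ℝ) : Prop :=
  Irreducible P ∧ P.IsPrimitive ∧ 0 < P.leadingCoeff ∧ aeval α P = 0

/-- Mahler's exponent `w_n(ξ)`, in the extended reals. -/
noncomputable def wMahler (ξ : ℝ) (n : ℕ) : EReal :=
  sSup {W : EReal | ∃ w : ℝ, W = (w : EReal) ∧
    {P : ℤ[X] | P.natDegree ≤ n ∧ 0 < |aeval ξ P| ∧
      |aeval ξ P| ≤ (height P : ℝ) ^ (-w)}.Infinite}

/-- Koksma's exponent `w_n^*(ξ)`, in the extended reals. -/
noncomputable def wKoksma (ξ : ℝ) (n : ℕ) : EReal :=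
  sSup {W : EReal | ∃ w : ℝ, W = (w : EReal) ∧
    {α : ℝ | ∃ P : ℤ[X], IsMinPolyZ P α ∧ P.natDegree ≤ n ∧ 0 < |ξ - α| ∧
      |ξ - α| ≤ (height P : ℝ) ^ (-w - 1)}.Infinite}

/-- A real S-number: transcendental with `limsup w_n(ξ) / n < ∞`. -/
def IsSNumber (ξ : ℝ) : Prop :=
  Transcendental ℚ ξ ∧ limsup (fun n : ℕ => wMahler ξ n / (n : EReal)) atTop < ⊤

/-- The type `t(ξ) = limsup (w_n(ξ) + 1) / (n + 1)`. -/
noncomputable def mahlerType (ξ : ℝ) : EReal :=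
  limsup (fun n : ℕ => (wMahler ξ n + 1) / ((n : EReal) + 1)) atTop

/-- The *-type `t^*(ξ) = limsup (w_n^*(ξ) + 1) / (n + 1)`. -/
noncomputable def koksmaType (ξ : ℝ) : EReal :=
  limsup (fun n : ℕ => (wKoksma ξ n + 1) / ((n : EReal) + 1)) atTop

theorem ratio_coe (a : ℝ) (n : ℕ) :
    ((a : EReal) + 1) / ((n : EReal) + 1) = (((a + 1) / ((n : ℝ) + 1) : ℝ) : EReal) := by
  rw [EReal.coe_div]
  push_cast
  rfl

theorem n_nonneg (n : ℕ) : (0 : EReal) ≤ (n : EReal) + 1 := by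
  have : (0 : EReal) ≤ (n : EReal) := by exact_mod_cast Nat.zero_le n
  exact add_nonneg this zero_le_one

theorem ratio_le (W : EReal) (a b : ℝ) (n : ℕ) (h : W ≤ (a : EReal))
    (hab : a + 1 ≤ b * ((n : ℝ) + 1)) :
    (W + 1) / ((n : EReal) + 1) ≤ (b : EReal) := by
  have h1 : (W + 1) / ((n : EReal) + 1) ≤ ((a : EReal) + 1) / ((n : EReal) + 1) :=
    EReal.div_le_div_right_of_nonneg (n_nonneg n) (add_le_add_left h 1)
  refine h1.trans ?_
  rw [ratio_coe]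
  have h2 : (a + 1) / ((n : ℝ) + 1) ≤ b := by
    rw [div_le_iff₀ (by positivity)]
    exact hab
  exact_mod_cast h2

theorem le_ratio (W : EReal) (a b : ℝ) (n : ℕ) (h : (a : EReal) ≤ W)
    (hab : b * ((n : ℝ) + 1) ≤ a + 1) :
    (b : EReal) ≤ (W + 1) / ((n : EReal) + 1) := by
  have h1 : ((a : EReal) + 1) / ((n : EReal) + 1) ≤ (W + 1) / ((n : EReal) + 1) :=
    EReal.div_le_div_right_of_nonneg (n_nonneg n) (add_le_add_left h 1)
  refine le_trans ?_ h1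
  rw [ratio_coe]
  have h2 : b ≤ (a + 1) / ((n : ℝ) + 1) := by
    rw [le_div_iff₀ (by positivity)]
    exact hab
  exact_mod_cast h2

theorem wM_eq (ξ : ℝ) (n : ℕ) : wMahler ξ n =
    sSup {W : EReal | ∃ w : ℝ, W = (w : EReal) ∧ w ∈ Pool.Agent.Helper35.WSet ξ n} := by
  unfold wMahler
  congr 1
  ext W
  simp only [Set.mem_ofPred_eq]
  refine exists_congr (fun w => and_congr_right (fun _ => ?_))
  unfold Pool.Agent.Helper35.WSet
  simp only [Set.mem_ofPred_eq]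
  have : {P : ℤ[X] | P.natDegree ≤ n ∧ 0 < |aeval ξ P| ∧
      |aeval ξ P| ≤ (height P : ℝ) ^ (-w)} = {P : ℤ[X] | P ≠ 0 ∧ P.natDegree ≤ n ∧
      0 < |aeval ξ P| ∧ |aeval ξ P| ≤ (Pool.Agent.Helper35.ht P : ℝ) ^ (-w)} := by
    ext P
    simp only [Set.mem_ofPred_eq]
    constructor
    · rintro ⟨h1, h2, h3⟩
      refine ⟨?_, h1, h2, h3⟩
      rintro rfl
      simp at h2
    · rintro ⟨_, h1, h2, h3⟩
      exact ⟨h1, h2, h3⟩
  rw [this]

theorem wK_eq (ξ : ℝ) (n : ℕ) : wKoksma ξ n =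
    sSup {W : EReal | ∃ w : ℝ, W = (w : EReal) ∧ w ∈ Pool.Agent.Helper35.SSet ξ n} := rfl

theorem sSup_le_of (S : Set ℝ) (a : ℝ) (h : ∀ w ∈ S, w ≤ a) :
    sSup {W : EReal | ∃ w : ℝ, W = (w : EReal) ∧ w ∈ S} ≤ (a : EReal) := by
  apply sSup_le
  rintro W ⟨w, rfl, hw⟩
  exact_mod_cast h w hw

theorem le_sSup_of (S : Set ℝ) (a : ℝ) (h : ∀ w, w < a → w ∈ S) :
    (a : EReal) ≤ sSup {W : EReal | ∃ w : ℝ, W = (w : EReal) ∧ w ∈ S} := by
  apply le_of_forall_lt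
  intro c hc
  obtain ⟨w, hw1, hw2⟩ := EReal.lt_iff_exists_real_btwn.mp hc
  have hw3 : w < a := by exact_mod_cast hw2
  exact lt_of_lt_of_le hw1 (le_sSup ⟨w, rfl, h w hw3⟩)

/-- The exact value of the upper limit. -/
theorem type_eq (W : ℕ → EReal) (b C : ℕ) (f : ℕ → ℕ) (hf : ∀ a : ℕ, ∃ i, a ≤ f i)
    (hU : ∀ n : ℕ, W n ≤ (((b * (n + 1) + C : ℕ) : ℝ) : EReal))
    (hL : ∀ i : ℕ, (((b * (f i + 1) : ℕ) : ℝ) - 1 : ℝ) ≤ W (f i)) :
    limsup (fun n : ℕ => (W n + 1) / ((n : EReal) + 1)) atTop = (b : EReal) := by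
  have hb : ((b : ℕ) : EReal) = (((b : ℕ) : ℝ) : EReal) := rfl
  apply le_antisymm
  · rw [hb, ← EReal.le_of_forall_lt_iff_le]
    intro z hz
    have hz2 : (b : ℝ) < z := by exact_mod_cast hz
    apply limsup_le_of_le
    · isBoundedDefault
    · obtain ⟨n0, hn0⟩ := exists_nat_gt (((C : ℝ) + 1) / (z - b))
      rw [div_lt_iff₀ (by linarith)] at hn0
      filter_upwards [eventually_ge_atTop n0] with n hn
      apply ratio_le _ _ _ n (hU n)
      have h1 : (n0 : ℝ) ≤ n := by exact_mod_cast hn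
      have h2 : (n0 : ℝ) * (z - b) ≤ ((n : ℝ) + 1) * (z - b) := by
        apply mul_le_mul_of_nonneg_right (by linarith) (by linarith)
      push_cast
      nlinarith
  · rw [hb]
    apply le_limsup_of_frequently_le
    · rw [frequently_atTop]
      intro a
      obtain ⟨i, hi⟩ := hf a
      refine ⟨f i, hi, ?_⟩
      apply le_ratio _ _ _ _ (hL i)
      push_cast
      linarith
    · isBoundedDefault

theorem isS (ξ : ℝ) (b : ℕ) (hne : Transcendental ℚ ξ)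
    (h : ∀ n : ℕ, wMahler ξ n ≤ (((b * (n + 1) : ℕ) : ℝ) : EReal)) : IsSNumber ξ := by
  refine ⟨hne, lt_of_le_of_lt (b := (((2 * b : ℕ) : ℝ) : EReal)) ?_ (EReal.coe_lt_top _)⟩
  apply limsup_le_of_le
  · isBoundedDefault
  · filter_upwards [eventually_ge_atTop 1] with n hn
    have h0 : (0 : EReal) ≤ (n : EReal) := by exact_mod_cast Nat.zero_le n
    have h1 : wMahler ξ n / (n : EReal) ≤ ((((b * (n + 1) : ℕ) : ℝ) : EReal)) / (n : EReal) :=
      EReal.div_le_div_right_of_nonneg h0 (h n)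
    refine h1.trans ?_
    have e : ((((b * (n + 1) : ℕ) : ℝ) : EReal)) / (n : EReal) =
        ((((b * (n + 1) : ℕ) : ℝ) / (n : ℝ) : ℝ) : EReal) := by
      rw [EReal.coe_div]; rfl
    rw [e]
    have hnr : (1 : ℝ) ≤ n := by exact_mod_cast hn
    have h3 : ((b * (n + 1) : ℕ) : ℝ) / (n : ℝ) ≤ ((2 * b : ℕ) : ℝ) := by
      rw [div_le_iff₀ (by linarith)]
      have : b * (n + 1) ≤ 2 * b * n := by
        have : b * 1 ≤ b * n := Nat.mul_le_mul_left _ hn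
        calc b * (n + 1) = b * n + b * 1 := by ring
          _ ≤ b * n + b * n := by omega
          _ = 2 * b * n := by ring
      exact_mod_cast this
    exact_mod_cast h3

theorem wM_le (ξ : ℝ) (n E : ℕ) (h : ∃ c : ℝ, 0 < c ∧ ∀ P : ℤ[X], P ≠ 0 → P.natDegree ≤ n →
    c ≤ |aeval ξ P| * (Pool.Agent.Helper35.ht P : ℝ) ^ E) :
    wMahler ξ n ≤ ((E : ℝ) : EReal) := by
  obtain ⟨c, hc, hcc⟩ := h
  rw [wM_eq]
  exact sSup_le_of _ _ (fun w hw => Pool.Agent.Helper35.WSet_le ξ n _ c hc hcc w hw)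

theorem wK_le (ξ : ℝ) (n E : ℕ) (h : ∃ c : ℝ, 0 < c ∧ ∀ P : ℤ[X], P ≠ 0 → P.natDegree ≤ n →
    c ≤ |aeval ξ P| * (Pool.Agent.Helper35.ht P : ℝ) ^ E) :
    wKoksma ξ n ≤ ((E : ℝ) : EReal) := by
  obtain ⟨c, hc, hcc⟩ := h
  rw [wK_eq]
  exact sSup_le_of _ _ (fun w hw => Pool.Agent.Y897.ST.SSet_leR ξ n _ c hc hcc w hw)

/-- A number with the two types equal to `b`, from lower and upper bounds. -/
theorem both_types (η : ℝ) (b C : ℕ) (hb : 1 ≤ b) (f : ℕ → ℕ) (hf : ∀ a : ℕ, ∃ i, a ≤ f i)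
    (hf1 : ∀ i, 1 ≤ f i)
    (hU : ∀ n : ℕ, ∃ c : ℝ, 0 < c ∧ ∀ P : ℤ[X], P ≠ 0 → P.natDegree ≤ n →
      c ≤ |aeval η P| * (Pool.Agent.Helper35.ht P : ℝ) ^ (b * (n + 1) + C))
    (hL : ∀ i : ℕ, Pool.Agent.Y897.ST.Near η (f i) (b * (f i + 1))) :
    IsSNumber η ∧ mahlerType η = (b : EReal) ∧ koksmaType η = (b : EReal) := by
  have hne : ∀ P : ℤ[X], P ≠ 0 → aeval η P ≠ 0 := by
    intro P hP hz
    obtain ⟨c, hc, hcc⟩ := hU P.natDegree
    have := hcc P hP le_rfl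
    rw [hz, abs_zero, zero_mul] at this
    linarith
  have htr := Pool.Agent.Y897.ST.transc_of η hne
  have hE : ∀ i, 2 ≤ b * (f i + 1) := by
    intro i
    calc 2 ≤ 1 * (f i + 1) := by have := hf1 i; omega
      _ ≤ b * (f i + 1) := Nat.mul_le_mul_right _ hb
  refine ⟨?_, ?_, ?_⟩
  · apply isS η (b + C) htr
    intro n
    refine (wM_le η n _ (hU n)).trans ?_
    have : b * (n + 1) + C ≤ (b + C) * (n + 1) := by nlinarith
    exact_mod_cast this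
  · apply type_eq (wMahler η) b C f hf
    · exact fun n => wM_le η n _ (hU n)
    · intro i
      rw [wM_eq]
      apply le_sSup_of
      intro w hw
      exact Pool.Agent.Y897.ST.near_WSet η hne (f i) _ (hE i) (hL i) w hw
  · apply type_eq (wKoksma η) b C f hf
    · exact fun n => wK_le η n _ (hU n)
    · intro i
      rw [wK_eq]
      apply le_sSup_of
      intro w hw
      exact Pool.Agent.Y897.ST.near_SSet η (f i) _ (hE i) (hL i) w hw

/-- For every finite set `S` of nonzero integers and every natural number `L > 0` which is a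
multiple of every `k` in `S` and at least `40 k²` for every `k` in `S`, there is one real S-number
`ξ` with `t(ξ^k) = t^*(ξ^k) = L / |k|` for every `k` in `S` and for `k = 1`. -/
theorem falling (S : Finset ℤ) (L : ℕ) (hS0 : ∀ k ∈ S, k ≠ 0) (hS1 : ∀ k ∈ S, k.natAbs ∣ L)
    (hS2 : ∀ k ∈ S, 40 * k.natAbs ^ 2 ≤ L) (hL : 40 ≤ L) :
    ∃ ξ : ℝ, IsSNumber ξ ∧ mahlerType ξ = (L : EReal) ∧ koksmaType ξ = (L : EReal) ∧
      ∀ k ∈ S, IsSNumber (ξ ^ k) ∧ mahlerType (ξ ^ k) = ((L / k.natAbs : ℕ) : EReal) ∧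
        koksmaType (ξ ^ k) = ((L / k.natAbs : ℕ) : EReal) := by
  obtain ⟨Q, hQ⟩ : ∃ Q : ℕ, Q = ∑ k ∈ S, k.natAbs := ⟨_, rfl⟩
  have hleQ : ∀ k ∈ S, k.natAbs ≤ Q := by
    intro k hk
    rw [hQ]
    exact Finset.single_le_sum (f := fun k : ℤ => k.natAbs) (fun _ _ => Nat.zero_le _) hk
  obtain ⟨e, he⟩ : ∃ e : ℕ → ℕ, e = fun k => Q.factorial * (Nat.unpair k).1 := ⟨_, rfl⟩
  obtain ⟨V, hVe⟩ : ∃ V : ℕ → ℕ, ∀ j, V j = L * (j + 2) :=
    ⟨fun j => L * (j + 2), fun _ => rfl⟩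
  obtain ⟨Mq, hMq⟩ : ∃ Mq : ℕ → ℕ, Pool.Agent.Helper35.Demand e Mq := ⟨_, fun k => le_rfl⟩
  have hV : ∀ j, 22 ≤ V j := by
    intro j
    rw [hVe]
    calc 22 ≤ 40 * 1 := by norm_num
      _ ≤ L * (j + 2) := Nat.mul_le_mul hL (by omega)
  have hcopQ : ∀ i : ℕ, Nat.Coprime (Q.factorial * i + 1) Q.factorial := by
    intro i
    rw [Nat.coprime_comm]
    have h1 : Nat.Coprime Q.factorial (1 + Q.factorial * i) :=
      Nat.coprime_add_mul_left_right Q.factorial 1 i |>.mpr (Nat.coprime_one_right _)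
    rwa [add_comm] at h1
  have hcop1 : ∀ q : ℕ, q ≤ Q → ∀ i : ℕ, Nat.Coprime (Q.factorial * i + 1) q.factorial :=
    fun q hq i => Nat.Coprime.coprime_dvd_right (Nat.factorial_dvd_factorial hq) (hcopQ i)
  have hcop : ∀ q : ℕ, q ≤ Q → ∀ k, Nat.Coprime (e k + 1) q.factorial := by
    intro q hq k
    rw [he]
    exact hcop1 q hq _
  have hinf : ∀ i K : ℕ, ∃ k, K ≤ k ∧ e k = Q.factorial * i := by
    intro i K
    refine ⟨Nat.pair i K, Nat.right_le_pair i K, ?_⟩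
    simp [he]
  obtain ⟨X⟩ := Pool.Agent.Helper35.sdata_exists e V Mq hV
  have hne := Pool.Agent.Y897.ST.ne_all X L hL hMq hV (fun j => (hVe j).le)
  have htr := Pool.Agent.Y897.ST.transc_of _ hne
  have hfun : ∀ a : ℕ, ∃ i, a ≤ Q.factorial * i + 1 := by
    intro a
    refine ⟨a, ?_⟩
    have : 1 * a ≤ Q.factorial * a := Nat.mul_le_mul_right _ (Nat.factorial_pos Q)
    omega
  have hX0 : X.ξ ≠ 0 := by
    intro h0
    exact hne Polynomial.X Polynomial.X_ne_zero (by rw [aeval_X]; exact h0)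
  -- the number `ξ`
  have hξ := both_types X.ξ L 0 (by omega) (fun i => Q.factorial * i + 1) hfun
    (fun i => by omega) (fun n => by
      apply X.bound_all hMq hV
      · rw [add_zero]; exact Nat.mul_le_mul_right _ hL
      · intro j hj
        rw [hVe, add_zero]
        exact Nat.mul_le_mul_left _ (by omega))
    (fun i => by
      have h := Pool.Agent.Y897.ST.near_pow X hMq hV 1 L le_rfl (Q.factorial * i)
        (by simp) (by rw [hVe, one_mul]) (hinf i) htr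
      rw [pow_one] at h
      exact h)
  refine ⟨X.ξ, hξ.1, hξ.2.1, hξ.2.2, ?_⟩
  -- the powers
  intro k hk
  have hk0 := hS0 k hk
  obtain ⟨B, hLB⟩ := hS1 k hk
  have hkQ := hleQ k hk
  have hk2 := hS2 k hk
  obtain ⟨q, hqk⟩ : ∃ q : ℕ, q = k.natAbs := ⟨_, rfl⟩
  rw [← hqk] at hLB hkQ hk2 ⊢
  have hq : 1 ≤ q := by rw [hqk]; exact Int.natAbs_pos.mpr hk0
  have hBq : L / q = B := by rw [hLB]; exact Nat.mul_div_cancel_left B hq
  have hB : 40 * q ≤ B := by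
    apply Nat.le_of_mul_le_mul_left _ hq
    calc q * (40 * q) = 40 * q ^ 2 := by ring
      _ ≤ L := hk2
      _ = q * B := hLB
  rw [hBq]
  have hVe' : ∀ j, V j = q * B * (j + 2) := by
    intro j
    rw [hVe, hLB]
  have hη0 : X.ξ ^ q ≠ 0 := pow_ne_zero _ hX0
  have hUq : ∀ n : ℕ, ∃ c : ℝ, 0 < c ∧ ∀ P : ℤ[X], P ≠ 0 → P.natDegree ≤ n →
      c ≤ |aeval (X.ξ ^ q) P| * (Pool.Agent.Helper35.ht P : ℝ) ^ (B * (n + 1) + 1) :=
    fun n => Pool.Agent.Y897.ST.bound_pow X q B hq hB (hcop q hkQ) hMq hV hVe' n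
  have hLq : ∀ i : ℕ, Pool.Agent.Y897.ST.Near (X.ξ ^ q) (Q.factorial * i + 1)
      (B * (Q.factorial * i + 1 + 1)) :=
    fun i => Pool.Agent.Y897.ST.near_pow X hMq hV q B hq (Q.factorial * i) (hcop1 q hkQ i)
      (hVe' _) (hinf i) htr
  rcases Int.natAbs_eq k with h | h
  · rw [h, ← hqk, zpow_natCast]
    exact both_types _ B 1 (by omega) (fun i => Q.factorial * i + 1) hfun
      (fun i => by omega) hUq hLq
  · rw [h, ← hqk, zpow_neg, zpow_natCast]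
    exact both_types _ B 1 (by omega) (fun i => Q.factorial * i + 1) hfun
      (fun i => by omega)
      (fun n => by
        obtain ⟨c, hc, hcc⟩ := hUq n
        exact Pool.Agent.Y897.ST.bound_inv _ hη0 n _ c hc hcc)
      (fun i => Pool.Agent.Y897.ST.near_inv _ hη0 _ _
        (Nat.mul_pos (by omega) (by omega)) (hLq i))

theorem cop_aux (s D a : ℕ) (hs : s ∣ D) : Nat.Coprime s (D * a + 1) := by
  obtain ⟨t, rfl⟩ := hs
  have h1 : Nat.Coprime s (1 + s * (t * a)) :=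
    Nat.coprime_add_mul_left_right s 1 (t * a) |>.mpr (Nat.coprime_one_right _)
  have h2 : s * t * a + 1 = 1 + s * (t * a) := by ring
  rw [h2]
  exact h1

theorem cop_EA (s D k : ℕ) (hs : s ∣ D) (hk : D ∣ k + 2) :
    Nat.Coprime s (Pool.Agent.Helper35.EA k) := by
  obtain ⟨u, hu⟩ := hk
  have h1 : Pool.Agent.Helper35.EA k = D * (4 * D * u ^ 2) + 1 := by
    unfold Pool.Agent.Helper35.EA
    rw [hu]
    ring
  rw [h1]
  exact cop_aux s D _ hs

/-- For every `D ≥ 1` and every `B ≥ 40 D` there is one real number `ζ` such that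
`t(ζ^k) = t^*(ζ^k) = |k| B` for all integers `k` dividing `D`. -/
theorem rising (D B : ℕ) (hD : 1 ≤ D) (hB : 40 * D ≤ B) :
    ∃ ζ : ℝ, ∀ k : ℤ, k ≠ 0 → k.natAbs ∣ D → IsSNumber (ζ ^ k) ∧
      mahlerType (ζ ^ k) = ((k.natAbs * B : ℕ) : EReal) ∧
      koksmaType (ζ ^ k) = ((k.natAbs * B : ℕ) : EReal) := by
  obtain ⟨e, he⟩ : ∃ e : ℕ → ℕ, ∀ k, e k =
      if D ∣ k + 2 then D * (Nat.unpair ((k + 2) / D)).1 else 0 := ⟨_, fun _ => rfl⟩
  obtain ⟨V, hVe⟩ : ∃ V : ℕ → ℕ, ∀ j, V j = D * B * (j + 2) :=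
    ⟨fun j => D * B * (j + 2), fun _ => rfl⟩
  obtain ⟨Mq, hMq⟩ : ∃ Mq : ℕ → ℕ, Pool.Agent.Helper35.Demand e Mq := ⟨_, fun k => le_rfl⟩
  have hB40 : 40 ≤ B := by omega
  have hDB : 40 ≤ D * B := by
    calc 40 = 1 * 40 := by norm_num
      _ ≤ D * B := Nat.mul_le_mul hD hB40
  have hV : ∀ j, 22 ≤ V j := by
    intro j
    rw [hVe]
    calc 22 ≤ 40 * 1 := by norm_num
      _ ≤ D * B * (j + 2) := Nat.mul_le_mul hDB (by omega)
  obtain ⟨X⟩ := Pool.Agent.Helper35.sdata_exists e V Mq hV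
  have hne := Pool.Agent.Y897.ST.ne_all X (D * B) hDB hMq hV (fun j => (hVe j).le)
  have hX0 : 0 < X.ξ := by
    rcases lt_or_eq_of_le X.ξ0 with h | h
    · exact h
    · exact absurd (by rw [aeval_X]; exact h.symm) (hne Polynomial.X Polynomial.X_ne_zero)
  obtain ⟨ζ, hζ⟩ : ∃ ζ : ℝ, ζ = X.ξ ^ ((D : ℝ)⁻¹) := ⟨_, rfl⟩
  have hζ0 : 0 < ζ := by rw [hζ]; exact Real.rpow_pos_of_pos hX0 _
  have hζ1 : ζ ≤ 1 := by
    rw [hζ]
    exact Real.rpow_le_one hX0.le X.ξ1 (by positivity)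
  have hζD : ζ ^ D = X.ξ := by rw [hζ]; exact Real.rpow_inv_natCast_pow hX0.le (by omega)
  refine ⟨ζ, fun k hk0 hkD => ?_⟩
  obtain ⟨q, hqk⟩ : ∃ q : ℕ, q = k.natAbs := ⟨_, rfl⟩
  rw [← hqk] at hkD ⊢
  have hq : 1 ≤ q := by rw [hqk]; exact Int.natAbs_pos.mpr hk0
  obtain ⟨s, hs⟩ := hkD
  have hs1 : 1 ≤ s := by
    rcases Nat.eq_zero_or_pos s with h | h
    · rw [h, mul_zero] at hs; omega
    · exact h
  have hsD : s ∣ D := ⟨q, by rw [hs, mul_comm]⟩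
  have hsD2 : s ≤ D := Nat.le_of_dvd (by omega) hsD
  have hVe' : ∀ j, V j = s * (q * B) * (j + 2) := by
    intro j
    rw [hVe, hs]
    ring
  have hBs : 40 * s ≤ q * B := by
    calc 40 * s ≤ 40 * D := Nat.mul_le_mul_left _ hsD2
      _ ≤ 1 * B := by omega
      _ ≤ q * B := Nat.mul_le_mul_right _ hq
  have hqB1 : 1 ≤ q * B := by
    calc 1 ≤ 1 * 40 := by norm_num
      _ ≤ q * B := Nat.mul_le_mul hq hB40
  have hgood : ∀ k, e k ≠ 0 → Nat.Coprime s (Pool.Agent.Helper35.EA k) ∧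
      Nat.Coprime s (e k + 1) := by
    intro k hek
    by_cases h : D ∣ k + 2
    · refine ⟨cop_EA s D k hsD h, ?_⟩
      rw [he, if_pos h]
      exact cop_aux s D _ hsD
    · exact absurd (by rw [he, if_neg h]) hek
  have hroot : (ζ ^ q) ^ s = X.ξ := by rw [← pow_mul, ← hs, hζD]
  have hpow0 : 0 < ζ ^ q := by positivity
  have hpow1 : ζ ^ q ≤ 1 := pow_le_one₀ hζ0.le hζ1
  have hf : ∀ a : ℕ, ∃ i, a ≤ s * (D * (i + 1) + 1) := by
    intro a
    refine ⟨a, ?_⟩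
    calc a ≤ 1 * (1 * (a + 1) + 1) := by omega
      _ ≤ s * (D * (a + 1) + 1) :=
          Nat.mul_le_mul hs1 (Nat.add_le_add_right (Nat.mul_le_mul_right _ hD) 1)
  have hf1 : ∀ i : ℕ, 1 ≤ s * (D * (i + 1) + 1) := fun i => Nat.mul_pos hs1 (by omega)
  have hU : ∀ n : ℕ, ∃ c : ℝ, 0 < c ∧ ∀ P : ℤ[X], P ≠ 0 → P.natDegree ≤ n →
      c ≤ |aeval (ζ ^ q) P| * (Pool.Agent.Helper35.ht P : ℝ) ^
        (q * B * (n + 1) + (2 * s ^ 2 * (q * B) + s + 1)) :=
    fun n => Pool.Agent.Y897.ST.bound_root X s (q * B) hs1 hBs hgood hMq hV hVe' (ζ ^ q)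
      hpow0.le hpow1 hroot n
  have hL : ∀ i : ℕ, Pool.Agent.Y897.ST.Near (ζ ^ q) (s * (D * (i + 1) + 1))
      (q * B * (s * (D * (i + 1) + 1) + 1)) := by
    intro i
    apply Pool.Agent.Y897.ST.near_root X s (q * B) hs1 hMq hV (D * (i + 1)) (hVe' _) _
      (ζ ^ q) hpow0 hroot
    intro K
    obtain ⟨u, hu⟩ : ∃ u : ℕ, u = Nat.pair (i + 1) (K + 2) := ⟨_, rfl⟩
    have hu1 : K + 2 ≤ u := by rw [hu]; exact Nat.right_le_pair _ _
    have hDu : K + 2 ≤ D * u := by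
      calc K + 2 ≤ 1 * u := by omega
        _ ≤ D * u := Nat.mul_le_mul_right _ hD
    have hk2 : D * u - 2 + 2 = D * u := by omega
    have hdvd : D ∣ D * u - 2 + 2 := by rw [hk2]; exact dvd_mul_right _ _
    have hek : e (D * u - 2) = D * (i + 1) := by
      rw [he, if_pos hdvd, hk2, Nat.mul_div_cancel_left _ (by omega), hu, Nat.unpair_pair]
    refine ⟨D * u - 2, by omega, hek, cop_EA s D _ hsD hdvd, ?_⟩
    rw [hek]
    exact cop_aux s D _ hsD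
  rcases Int.natAbs_eq k with h | h
  · rw [h, ← hqk, zpow_natCast]
    exact both_types _ (q * B) _ hqB1 _ hf hf1 hU hL
  · rw [h, ← hqk, zpow_neg, zpow_natCast]
    exact both_types _ (q * B) _ hqB1 _ hf hf1
      (fun n => by
        obtain ⟨c, hc, hcc⟩ := hU n
        exact Pool.Agent.Y897.ST.bound_inv _ hpow0.ne' n _ c hc hcc)
      (fun i => Pool.Agent.Y897.ST.near_inv _ hpow0.ne' _ _
        (Nat.mul_pos hqB1 (by omega)) (hL i))

/-- **Both extreme ratios of the types of `ξ^k` and `ξ` occur, for every exponent `k`.**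
(1) For every finite set `S` of nonzero integers and every `L ≥ 40` which is a multiple of every
`k` in `S` and at least `40 k²` for every `k` in `S`, there is one real S-number `ξ` with
`t(ξ) = t^*(ξ) = L` and `t(ξ^k) = t^*(ξ^k) = L / |k|` for every `k` in `S`.
(2) For every `D ≥ 1` and every `B ≥ 40 D` there is one real S-number `ξ` with
`t(ξ) = t^*(ξ) = B` and `t(ξ^k) = t^*(ξ^k) = |k| B` for every nonzero integer `k` dividing `D`. -/
theorem result :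
    (∀ (S : Finset ℤ) (L : ℕ), (∀ k ∈ S, k ≠ 0) → (∀ k ∈ S, k.natAbs ∣ L) →
      (∀ k ∈ S, 40 * k.natAbs ^ 2 ≤ L) → 40 ≤ L →
      ∃ ξ : ℝ, IsSNumber ξ ∧ mahlerType ξ = (L : EReal) ∧ koksmaType ξ = (L : EReal) ∧
        ∀ k ∈ S, IsSNumber (ξ ^ k) ∧ mahlerType (ξ ^ k) = ((L / k.natAbs : ℕ) : EReal) ∧
          koksmaType (ξ ^ k) = ((L / k.natAbs : ℕ) : EReal)) ∧
    (∀ D B : ℕ, 1 ≤ D → 40 * D ≤ B →
      ∃ ξ : ℝ, IsSNumber ξ ∧ mahlerType ξ = (B : EReal) ∧ koksmaType ξ = (B : EReal) ∧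
        ∀ k : ℤ, k ≠ 0 → k.natAbs ∣ D → IsSNumber (ξ ^ k) ∧
          mahlerType (ξ ^ k) = ((k.natAbs * B : ℕ) : EReal) ∧
          koksmaType (ξ ^ k) = ((k.natAbs * B : ℕ) : EReal)) := by
  refine ⟨fun S L h0 h1 h2 h3 => falling S L h0 h1 h2 h3, fun D B hD hB => ?_⟩
  obtain ⟨ζ, hζ⟩ := rising D B hD hB
  have h1 := hζ 1 one_ne_zero (by simp)
  rw [zpow_one, Int.natAbs_one, one_mul] at h1
  exact ⟨ζ, h1.1, h1.2.1, h1.2.2, hζ⟩

end Pool.Agent.Results.MP_ac14a7_nt.AllPowers
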